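import Pool.Agent.K1H30.HS.Stm

/-! Scrolls over hyperelliptic curves: cancellation of a function not vanishing at the point; the
number of conditions for the vanishing on fibres. -/

set_option autoImplicit false

namespace Pool.Agent.K1H87.HS

open MvPolynomial Pool.Agent.K1H30.HS
open Pool.Agent.K1H30.ES (P3 Dz mI mn Fib ng)

section

variable {R : Type} [CommRing R]

/-- the functional as a linear map -/
noncomputable def fnL (f : Polynomial R) (P : Fin 3 → R) (a b : ℕ) : P3 R →ₗ[R] R :=
  (aeval P : P3 R →ₐ[R] R).toLinearMap ∘ₗ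
    (((Dv f : Derivation R (P3 R) (P3 R)) : P3 R →ₗ[R] P3 R) ^ a) ∘ₗ
    (((Dz : Derivation R (P3 R) (P3 R)) : P3 R →ₗ[R] P3 R) ^ b)

theorem fnL_apply (f : Polynomial R) (P : Fin 3 → R) (a b : ℕ) (G : P3 R) :
    fnL f P a b G = fn f P a b G := by
  unfold fnL fn
  rw [LinearMap.comp_apply, LinearMap.comp_apply, Module.End.pow_apply, Module.End.pow_apply,
    AlgHom.toLinearMap_apply, MvPolynomial.aeval_eq_eval]
  rfl

theorem fn_add (f : Polynomial R) (P : Fin 3 → R) (a b : ℕ) (F G : P3 R) :
    fn f P a b (F + G) = fn f P a b F + fn f P a b G := by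
  rw [← fnL_apply, ← fnL_apply, ← fnL_apply, map_add]

theorem fn_smul (f : Polynomial R) (P : Fin 3 → R) (a b : ℕ) (c : R) (G : P3 R) :
    fn f P a b (c • G) = c * fn f P a b G := by
  rw [← fnL_apply, ← fnL_apply, map_smul, smul_eq_mul]

theorem Van.add {f : Polynomial R} {P : Fin 3 → R} {k : ℕ} {F G : P3 R} (hF : Van f P k F)
    (hG : Van f P k G) : Van f P k (F + G) := fun a b h => by
  rw [fn_add, hF a b h, hG a b h, add_zero]

theorem Van.smul {f : Polynomial R} {P : Fin 3 → R} {k : ℕ} {G : P3 R} (c : R)
    (hG : Van f P k G) : Van f P k (c • G) := fun a b h => by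
  rw [fn_smul, hG a b h, mul_zero]

theorem Van.mono {f : Polynomial R} {P : Fin 3 → R} {k l : ℕ} {G : P3 R} (hG : Van f P k G)
    (h : l ≤ k) : Van f P l G := fun a b hab => hG a b (by omega)

theorem dz_fX (p : Polynomial R) : Dz (fX p) = 0 := by
  have h0 : Dz (X 0 : P3 R) = 0 := by
    simp [Dz, mkDerivation_X]
  unfold fX
  rw [Derivation.map_aeval, h0, smul_zero]

/-- the two derivations commute -/
theorem dv_dz (f : Polynomial R) (G : P3 R) : Dv f (Dz G) = Dz (Dv f G) := by
  have h : ⁅(Dv f : Derivation R (P3 R) (P3 R)), (Dz : Derivation R (P3 R) (P3 R))⁆ = 0 := by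
    apply MvPolynomial.derivation_ext
    intro i
    rw [Derivation.commutator_apply]
    fin_cases i
    · have h2 := (mkDerivation R ![(0 : P3 R), 0, 1]).map_natCast 2
      push_cast at h2
      simp [Dv, Dz, mkDerivation_X, Derivation.leibniz, h2]
    · have h2 := dz_fX (Polynomial.derivative f)
      have h3 : (Dv f : Derivation R (P3 R) (P3 R)) (X 1) = fX (Polynomial.derivative f) := by
        simp [Dv, mkDerivation_X]
      have h4 : Dz (X 1 : P3 R) = 0 := by
        simp [Dz, mkDerivation_X]
      change Dv f (Dz (X 1)) - Dz (Dv f (X 1)) = 0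
      rw [h3, h4, h2, map_zero, sub_zero]
    · simp [Dv, Dz, mkDerivation_X]
  have h1 := congrArg (fun D : Derivation R (P3 R) (P3 R) => D G) h
  simp only [Derivation.commutator_apply, Derivation.coe_zero, Pi.zero_apply] at h1
  exact sub_eq_zero.1 h1

theorem dz_iter_dv (f : Polynomial R) (b : ℕ) (G : P3 R) :
    (⇑(Dz : Derivation R (P3 R) (P3 R)))^[b] (Dv f G) =
      Dv f ((⇑(Dz : Derivation R (P3 R) (P3 R)))^[b] G) := by
  induction b with
  | zero => rfl
  | succ b ih => rw [Function.iterate_succ_apply', Function.iterate_succ_apply', ih, dv_dz]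

theorem fn_dv (f : Polynomial R) (P : Fin 3 → R) (a b : ℕ) (G : P3 R) :
    fn f P a b (Dv f G) = fn f P (a + 1) b G := by
  unfold fn
  rw [dz_iter_dv, Function.iterate_succ_apply]

theorem fn_dz (f : Polynomial R) (P : Fin 3 → R) (a b : ℕ) (G : P3 R) :
    fn f P a b (Dz G) = fn f P a (b + 1) G := by
  unfold fn
  rw [Function.iterate_succ_apply]

/-- the recursive description -/
theorem van_succ (f : Polynomial R) (P : Fin 3 → R) (k : ℕ) (G : P3 R) :
    Van f P (k + 1) G ↔ eval P G = 0 ∧ Van f P k (Dv f G) ∧ Van f P k (Dz G) := by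
  constructor
  · intro h
    refine ⟨h 0 0 (by omega), fun a b hab => ?_, fun a b hab => ?_⟩
    · rw [fn_dv]; exact h _ _ (by omega)
    · rw [fn_dz]; exact h _ _ (by omega)
  · rintro ⟨h0, h1, h2⟩ a b hab
    rcases a with _ | a
    · rcases b with _ | b
      · exact h0
      · rw [← fn_dz]; exact h2 _ _ (by omega)
    · rw [← fn_dv]; exact h1 _ _ (by omega)

theorem van_mul (f : Polynomial R) (P : Fin 3 → R) (n : ℕ) : ∀ (k l : ℕ) (F G : P3 R), k + l = n →
    Van f P k F → Van f P l G → Van f P n (F * G) := by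
  induction n with
  | zero => intro k l F G _ _ _ a b hab; omega
  | succ n ih =>
    intro k l F G hkl hF hG
    have hE : ∀ (D : Derivation R (P3 R) (P3 R)),
        (∀ (m : ℕ) (H : P3 R), Van f P (m + 1) H → Van f P m (D H)) → Van f P n (D (F * G)) := by
      intro D hD
      rw [Derivation.leibniz, smul_eq_mul, smul_eq_mul]
      refine Van.add ?_ ?_
      · rcases l with _ | l
        · exact ih n 0 F (D G) (by omega) (Van.mono hF (by omega)) (fun a b hab => by omega)
        · exact ih k l F (D G) (by omega) hF (hD l G hG)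
      · rcases k with _ | k
        · exact ih n 0 G (D F) (by omega) (Van.mono hG (by omega)) (fun a b hab => by omega)
        · exact ih l k G (D F) (by omega) hG (hD k F hF)
    rw [van_succ]
    refine ⟨?_, hE (Dv f) fun m H h => ((van_succ f P m H).1 h).2.1,
      hE Dz fun m H h => ((van_succ f P m H).1 h).2.2⟩
    rw [map_mul]
    rcases k with _ | k
    · rcases l with _ | l
      · omega
      · rw [((van_succ f P l G).1 hG).1, mul_zero]
    · rw [((van_succ f P k F).1 hF).1, zero_mul]

end

theorem vanc_aux (K : Type) [Field K] (f : Polynomial K) (P : Fin 3 → K) (c : P3 K)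
    (hc : eval P c ≠ 0) (k : ℕ) : ∀ H : P3 K, Van f P k (c * H) → Van f P k H := by
  induction k with
  | zero => intro H _ a b hab; omega
  | succ k ih =>
    intro H h
    have h' := (van_succ f P k (c * H)).1 h
    have hH : Van f P k H := ih H (Van.mono h (by omega))
    have key : ∀ D : Derivation K (P3 K) (P3 K), Van f P k (D (c * H)) → Van f P k (D H) := by
      intro D h2
      apply ih
      rw [Derivation.leibniz, smul_eq_mul, smul_eq_mul] at h2
      have h3 : Van f P k (H * D c) :=
        van_mul f P k k 0 H (D c) rfl hH (fun a b hab => by omega)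
      have h4 := Van.add h2 (Van.smul (-1) h3)
      have h5 : c * D H + H * D c + (-1 : K) • (H * D c) = c * D H := by
        rw [neg_smul, one_smul]; ring
      rwa [h5] at h4
    rw [van_succ]
    refine ⟨?_, key _ h'.2.1, key _ h'.2.2⟩
    have h0 := h'.1
    rw [map_mul] at h0
    exact (mul_eq_zero.1 h0).resolve_left hc

theorem t_VANC : S_VANC := fun K _ f P k c H hc h => vanc_aux K f P c hc k H h

section CND

variable {K : Type} [Field K]

/-- restriction to the fibre over `(x, y)` -/
noncomputable def phi (x y : K) : P3 K →ₐ[K] Polynomial K :=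
  aeval ![Polynomial.C x, Polynomial.C y, Polynomial.X]

theorem phi_eval (x y z : K) (g : P3 K) :
    Polynomial.eval z (phi x y g) = eval ![x, y, z] g := by
  have h : (Polynomial.aeval z : Polynomial K →ₐ[K] K).comp (phi x y) =
      (aeval ![x, y, z] : P3 K →ₐ[K] K) := by
    apply MvPolynomial.algHom_ext
    intro i
    fin_cases i <;> simp [phi]
  have h1 := congrArg (fun f : P3 K →ₐ[K] K => f g) h
  simp only [AlgHom.comp_apply] at h1
  rw [Polynomial.coe_aeval_eq_eval] at h1
  rw [h1, MvPolynomial.aeval_eq_eval]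

theorem phi_mem (x y : K) (N A B a : ℕ) (e : ℤ) (g : P3 K) (hg : g ∈ Cls K N A B a e) :
    phi x y g ∈ Polynomial.degreeLE K a := by
  have h : Cls K N A B a e ≤ (Polynomial.degreeLE K a).comap (phi x y).toLinearMap := by
    unfold Cls
    rw [Submodule.span_le]
    rintro _ ⟨m, hm, rfl⟩
    simp only [Submodule.comap_coe, Set.mem_preimage, SetLike.mem_coe, AlgHom.toLinearMap_apply]
    rw [Polynomial.mem_degreeLE]
    have h1 : phi x y (mn m) = Polynomial.C (x ^ m.1 * y ^ m.2.1) * Polynomial.X ^ m.2.2 := by
      simp [phi, mn]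
    rw [h1]
    refine (Polynomial.degree_C_mul_X_pow_le _ _).trans ?_
    exact_mod_cast hm.2.1
  exact h hg

/-- the coefficients on the fibres -/
noncomputable def th {k : ℕ} (p : Fin k → K × K) (a : ℕ) : P3 K →ₗ[K] (Fin k → Fin (a + 1) → K) :=
  LinearMap.pi fun i => LinearMap.pi fun j =>
    (Polynomial.lcoeff K (j : ℕ)) ∘ₗ (phi (p i).1 (p i).2).toLinearMap

end CND

theorem t_CND : S_CND := by
  intro K _ N A B a k e p
  by_cases hfin : FiniteDimensional K (Cls K N A B a e)
  · refine ⟨(LinearMap.ker ((th p a).domRestrict (Cls K N A B a e))).map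
      (Cls K N A B a e).subtype, ?_, ?_, ?_⟩
    · exact Submodule.map_subtype_le _ _
    · rintro _ ⟨g, hg, rfl⟩ i z
      have hg' : th p a (g : P3 K) = 0 := hg
      have h0 : phi (p i).1 (p i).2 (g : P3 K) = 0 := by
        have h1 := phi_mem (p i).1 (p i).2 N A B a e g g.2
        rw [Polynomial.mem_degreeLE] at h1
        ext j
        rw [Polynomial.coeff_zero]
        by_cases hj : j ≤ a
        · have h2 := congrFun (congrFun hg' i) ⟨j, by omega⟩
          simpa [th] using h2
        · exact Polynomial.coeff_eq_zero_of_degree_lt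
            (h1.trans_lt (by exact_mod_cast (not_le.1 hj)))
      have h3 := phi_eval (p i).1 (p i).2 z (g : P3 K)
      rw [h0, Polynomial.eval_zero] at h3
      exact h3.symm
    · rw [Submodule.finrank_map_subtype_eq]
      have h1 := LinearMap.finrank_range_add_finrank_ker ((th p a).domRestrict (Cls K N A B a e))
      have h2 : Module.finrank K (LinearMap.range ((th p a).domRestrict (Cls K N A B a e))) ≤
          k * (a + 1) := by
        refine (Submodule.finrank_le _).trans ?_
        rw [Module.finrank_pi_fintype]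
        simp
      omega
  · refine ⟨⊥, bot_le, ?_, ?_⟩
    · intro g hg i z
      rw [(Submodule.mem_bot K).1 hg, map_zero]
    · rw [Module.finrank_of_not_finite hfin]
      exact Nat.zero_le _

end Pool.Agent.K1H87.HS
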